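import Pool.Agent.U480.RF.Fin

/-!
# Amalgams of virtually RFRS groups over cyclic groups

`IsRFRS` is the definition of the problem: `G` is finitely generated and has finite-index normal
subgroups `G = U 0 ≥ U 1 ≥ ...` with trivial intersection such that `U (i + 1)` contains every
element of `U i` with a positive power in the commutator subgroup of `U i`, that is, the kernel of
`U i → H₁(U i) ⊗ ℚ`.

The theorem: let `G₁` and `G₂` be finitely generated virtually RFRS groups and `C` a cyclic group
without nontrivial torsion (so trivial or infinite cyclic) embedded in both. Then `G₁ *_C G₂` is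
virtually RFRS. This answers the question of the problem for the class of the virtually RFRS groups:
free-by-cyclic groups are torsion-free.

The proof. Let `T i` be the canonical tower of a group: `T (i + 1)` consists of the elements of `T i`
on which all the homomorphisms `T i → ℤ` are divisible by `(i + 2)!`. A finitely generated group is
RFRS if and only if its tower has trivial intersection. Let `G = G₁ *_C G₂`, `C = ⟨c⟩` infinite. Choose
normal finite-index subgroups `A` of `G₁` and `B` of `G₂` whose towers have trivial intersection, with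
`A ∩ C = B ∩ C = ⟨c^m⟩`, and such that some homomorphisms `A → ℤ` and `B → ℤ` are `1` on `c^m`.
By the criterion of `Pool.Agent.K4H11.RFRS.Walk` it is enough to find a normal subgroup `K` of finite
index of `G` such that for every `i` some `T b (K)` satisfies `T b (K) ∩ G₁ ≤ T i (A)` and
`T b (K) ∩ G₂ ≤ T i (B)`. By induction on `i` we construct `b` and maps
`p : G / T b (K) → G₁ / T i (A)` and `q : G / T b (K) → G₂ / T i (B)` such that `p` is
`G₁`-equivariant and `G₂` acts on its values through powers of `c`, and vice versa for `q`.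

* Start: `G` acts on `G₁ / A × G₂ / B`, each factor acting on the other coordinate through powers of
  `c`; `K` is the kernel.
* Products: let `α` and `β` be homomorphisms of `T i (A)` and `T i (B)` to `ℤ`, let `w` and `λ` be the
  functions on the cosets given by the values of `α` and `β` on the conjugates of the generator of the
  intersection with `C`. The cocycles `λ(q) α̃(g, p)` of `G₁` and `w(p) β̃(h, q)` of `G₂` agree on `C` up
  to a coboundary, because they have the same periods. Gluing them gives homomorphisms `T b (K) → ℤ`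
  that restrict to `α` on `T b (K) ∩ G₁` if `β` is normalised. So
  `T (b+1) (K) ∩ G₁ ≤ T (i+1) (A)`.
* Lifting: `p` lifts to `G₁ / T (i+1) (A)` after replacing `b` by `b + 2`: the obstruction is a
  homomorphism from `T (b+1) (K)` to the abelian group `T i (A) / T (i+1) (A)` which is trivial on the
  factors, so it lifts to a free abelian group, and vanishes on `T (b+2) (K)`.
-/

set_option autoImplicit false
set_option linter.unusedSectionVars false
set_option linter.dupNamespace false

universe u v

namespace Pool.Agent.Results.MP_3982fc_al.AllCyclicAmalgams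

open Pool.Agent.R632.VRC

/-- `G` is RFRS: it is finitely generated and has a chain of finite-index normal subgroups
`G = U 0 ≥ U 1 ≥ ...` with trivial intersection such that `U (i + 1)` contains the kernel of the
homomorphism `U i → H₁(U i) ⊗ ℚ`, i.e. the elements of `U i` some positive power of which is in the
commutator subgroup of `U i`. -/
def IsRFRS (G : Type u) [Group G] : Prop :=
  Group.FG G ∧ ∃ U : ℕ → Subgroup G, U 0 = ⊤ ∧ (∀ i, (U i).Normal) ∧ (∀ i, (U i).FiniteIndex) ∧
    (∀ i, U (i + 1) ≤ U i) ∧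
    (∀ i, ∀ x ∈ U i, ∀ n : ℕ, 0 < n → x ^ n ∈ ⁅U i, U i⁆ → x ∈ U (i + 1)) ∧ ⨅ i, U i = ⊥

/-- Some subgroup of finite index is RFRS. -/
def IsVirtuallyRFRS (G : Type u) [Group G] : Prop :=
  ∃ K : Subgroup G, K.FiniteIndex ∧ IsRFRS K

/-- The amalgamated free product of `G₁` and `G₂` along `a` and `b`. -/
abbrev Amalgam {G₁ G₂ H : Type*} [Group G₁] [Group G₂] [Group H] (a : H →* G₁) (b : H →* G₂) :=
  Monoid.Coprod G₁ G₂ ⧸ Subgroup.normalClosure (Set.range fun h : H =>
    (Monoid.Coprod.inl (a h) : Monoid.Coprod G₁ G₂) * (Monoid.Coprod.inr (b h))⁻¹)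

lemma aux (G₁ G₂ : Type u) [Group G₁] [Group G₂] (hfg₁ : Group.FG G₁) (hfg₂ : Group.FG G₂)
    (h₁ : IsVirtuallyRFRS G₁) (h₂ : IsVirtuallyRFRS G₂) (D : Type u) [Group D] (c : D)
    (hc : ∀ x : D, ∃ n : ℤ, x = c ^ n) (hcc : (∀ x : D, x = 1) ∨ ∀ n : ℤ, c ^ n = 1 → n = 0)
    (a : D →* G₁) (b : D →* G₂) (ha : Function.Injective a) (hb : Function.Injective b)
    {Γ : Type u} [Group Γ] (hΓf : Group.FG Γ) {i : G₁ →* Γ} {j : G₂ →* Γ}
    (hΓ : Amalg (famHom a b) (famOut i j)) : IsVirtuallyRFRS Γ := by
  have hK : ∀ k, ∃ K : Subgroup (Fam G₁ G₂ k), K.FiniteIndex ∧ K4H11.RFRS.IsRFRS K := by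
    rintro (_ | _)
    · exact h₂
    · exact h₁
  have hG : ∀ k, Group.FG (Fam G₁ G₂ k) := by
    rintro (_ | _)
    · exact hfg₂
    · exact hfg₁
  have hinj : ∀ k, Function.Injective (famHom a b k) := by
    rintro (_ | _)
    · exact hb
    · exact ha
  rcases hcc with h | h
  · obtain ⟨M, hM, hMT⟩ := U480.RF.main_triv hΓ h hK
    exact ⟨M, hM, K4H11.RFRS.isRFRS_of_TT hM hMT⟩
  · obtain ⟨M, hM, hMT⟩ := U480.RF.main_inf hΓ hG hinj c hc h hK
    exact ⟨M, hM, K4H11.RFRS.isRFRS_of_TT hM hMT⟩

/-- **The amalgam of two finitely generated virtually RFRS groups over a torsion-free cyclic group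
is virtually RFRS.** -/
theorem result (G₁ G₂ : Type u) [Group G₁] [Group G₂] (hfg₁ : Group.FG G₁) (hfg₂ : Group.FG G₂)
    (h₁ : IsVirtuallyRFRS G₁) (h₂ : IsVirtuallyRFRS G₂) (C : Type v) [Group C] (hC : IsCyclic C)
    (htf : ∀ x : C, IsOfFinOrder x → x = 1) (a : C →* G₁) (b : C →* G₂)
    (ha : Function.Injective a) (hb : Function.Injective b) :
    IsVirtuallyRFRS (Amalgam a b) := by
  obtain ⟨c, hc⟩ := hC.exists_generator
  -- a copy of `C` in the right universe
  obtain ⟨D, hD, dn, hdn, hds, d, hd, hdd⟩ : ∃ (D : Type u) (_ : Group D) (dn : D →* C),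
      Function.Injective dn ∧ Function.Surjective dn ∧ ∃ d : D, (∀ x : D, ∃ n : ℤ, x = d ^ n) ∧
        ((∀ x : D, x = 1) ∨ ∀ n : ℤ, d ^ n = 1 → n = 0) := by
    by_cases h1 : c = 1
    · refine ⟨PUnit, inferInstance, 1, fun _ _ _ => rfl, fun x => ?_, 1, fun x => ⟨1, rfl⟩,
        Or.inl fun x => rfl⟩
      obtain ⟨n, hn⟩ := hc x
      have hn' : c ^ n = x := hn
      rw [h1, one_zpow] at hn'
      exact ⟨1, hn'⟩
    · have hinf : ∀ n : ℤ, c ^ n = 1 → n = 0 := by
        intro n hn
        by_contra hne
        exact h1 (htf c (isOfFinOrder_iff_zpow_eq_one.mpr ⟨n, hne, hn⟩))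
      let f : Multiplicative ℤ →* C := zpowersHom C c
      have hf : ∀ x : Multiplicative ℤ, f x = c ^ (Multiplicative.toAdd x) := fun x => rfl
      refine ⟨ULift.{u} (Multiplicative ℤ), inferInstance, f.comp MulEquiv.ulift.toMonoidHom,
        ?_, ?_, ⟨Multiplicative.ofAdd 1⟩, ?_, ?_⟩
      · rw [injective_iff_map_eq_one]
        rintro ⟨x⟩ hx
        have hx' : c ^ (Multiplicative.toAdd x) = 1 := hx
        have h2 := hinf _ hx'
        apply ULift.ext
        show x = 1
        rw [← ofAdd_toAdd x, h2]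
        rfl
      · intro x
        obtain ⟨n, hn⟩ := hc x
        exact ⟨⟨Multiplicative.ofAdd n⟩, hn⟩
      · rintro ⟨x⟩
        refine ⟨Multiplicative.toAdd x, ?_⟩
        apply ULift.ext
        show x = (Multiplicative.ofAdd (1 : ℤ)) ^ (Multiplicative.toAdd x)
        rw [← ofAdd_zsmul, smul_eq_mul, mul_one, ofAdd_toAdd]
      · right
        intro n hn
        have h3 : (Multiplicative.ofAdd (1 : ℤ)) ^ n = 1 := congrArg ULift.down hn
        rw [← ofAdd_zsmul, smul_eq_mul, mul_one] at h3
        exact Multiplicative.ofAdd.injective h3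
  let a' := a.comp dn
  let b' := b.comp dn
  have ha' : Function.Injective a' := ha.comp hdn
  have hb' : Function.Injective b' := hb.comp hdn
  let N : Subgroup (Monoid.Coprod G₁ G₂) := Subgroup.normalClosure (Set.range fun h =>
    (Monoid.Coprod.inl (a h) : Monoid.Coprod G₁ G₂) * (Monoid.Coprod.inr (b h))⁻¹)
  have hset : (Set.range fun h => (Monoid.Coprod.inl (a h) : Monoid.Coprod G₁ G₂) *
      (Monoid.Coprod.inr (b h))⁻¹) = Set.range fun h : D =>
      (Monoid.Coprod.inl (a' h) : Monoid.Coprod G₁ G₂) * (Monoid.Coprod.inr (b' h))⁻¹ := by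
    ext x
    constructor
    · rintro ⟨h, rfl⟩
      obtain ⟨h', rfl⟩ := hds h
      exact ⟨h', rfl⟩
    · rintro ⟨h, rfl⟩
      exact ⟨dn h, rfl⟩
  have hΓ := coprod_amalg a' b' (QuotientGroup.mk' N) (QuotientGroup.mk'_surjective N) (by
    rw [QuotientGroup.ker_mk', ← hset])
  have hfgΓ : Group.FG (Monoid.Coprod G₁ G₂ ⧸ N) := by
    have h3 : Group.FG (Monoid.Coprod G₁ G₂) := by
      have h4 : (Monoid.Coprod.inl : G₁ →* Monoid.Coprod G₁ G₂).range.FG :=
        (Group.fg_iff_subgroup_fg _).mp (Group.fg_range _)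
      have h5 : (Monoid.Coprod.inr : G₂ →* Monoid.Coprod G₁ G₂).range.FG :=
        (Group.fg_iff_subgroup_fg _).mp (Group.fg_range _)
      rw [Group.fg_def, ← Monoid.Coprod.range_inl_sup_range_inr]
      exact h4.sup h5
    infer_instance
  exact aux G₁ G₂ hfg₁ hfg₂ h₁ h₂ D d hd hdd a' b' ha' hb' hfgΓ hΓ

end Pool.Agent.Results.MP_3982fc_al.AllCyclicAmalgams
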